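import Pool.Agent.Helper54.SAW.Defs
import Pool.Agent.Helper44.SAW.Planar

set_option autoImplicit false

/-!
# Planar self-avoiding walks, block C2c

Invariance of the decomposition at the cuts of the window under signed permutations of the
pieces; valid fold times are valid centres.
-/

namespace Pool.Agent.Helper3.SAW

open Finset Pool.Agent.Helper54.SAW

theorem X_nil : X [] = 0 := rfl

theorem Y_nil : Y [] = 0 := rfl

theorem X_append (u v : List St) : X (u ++ v) = X u + X v := by
  simp [X]

theorem Y_append (u v : List St) : Y (u ++ v) = Y u + Y v := by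
  simp [Y]

theorem fy_fy (s : St) : fy (fy s) = s := by
  unfold fy
  by_cases h : s.1 = 1 <;> simp [h]
  · rw [← h]

theorem dx_fy (s : St) : dx (fy s) = dx s := by
  unfold dx fy
  by_cases h : s.1 = 1
  · simp [h]
  · simp [h]

theorem dy_fy (s : St) : dy (fy s) = - dy s := by
  unfold dy fy
  by_cases h : s.1 = 1
  · by_cases h2 : s.2 = true <;> simp [h, h2]
  · simp [h]

theorem map_fy_fy (l : List St) : (l.map fy).map fy = l := by
  rw [List.map_map]
  conv_rhs => rw [← List.map_id l]
  apply List.map_congr_left
  intro s _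
  exact fy_fy s

theorem X_map_fy (l : List St) : X (l.map fy) = X l := by
  induction l with
  | nil => rfl
  | cons s l ih =>
    simp only [X, List.map_cons, List.sum_cons] at ih ⊢
    rw [ih, dx_fy]

theorem Y_map_fy (l : List St) : Y (l.map fy) = - Y l := by
  induction l with
  | nil => rfl
  | cons s l ih =>
    simp only [Y, List.map_cons, List.sum_cons] at ih ⊢
    rw [ih, dy_fy]; ring

theorem leftOK_map_fy {l : List St} (h : LeftOK l) : LeftOK (l.map fy) := by
  intro u v huv
  have h1 : l = u.map fy ++ v.map fy := by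
    rw [← List.map_append, ← huv, map_fy_fy]
  have h2 := h _ _ h1
  rwa [X_map_fy] at h2

theorem rightOK_map_fy {l : List St} (h : RightOK l) : RightOK (l.map fy) := by
  intro u v huv hu
  have h1 : l = u.map fy ++ v.map fy := by
    rw [← List.map_append, ← huv, map_fy_fy]
  have h2 := h _ _ h1 (by simpa using hu)
  rwa [X_map_fy] at h2

theorem saw_map_fy {l : List St} (h : Saw l) : Saw (l.map fy) := by
  intro u v t huvt hv hXY
  have h1 : l = u.map fy ++ v.map fy ++ t.map fy := by
    rw [← List.map_append, ← List.map_append, ← huvt, map_fy_fy]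
  refine h _ _ _ h1 (by simpa using hv) ?_
  rw [X_map_fy, Y_map_fy]
  exact ⟨hXY.1, by rw [hXY.2]; rfl⟩

theorem piece_map_fy {p : List St} (h : Piece p) : Piece (p.map fy) := by
  obtain ⟨h1, h2, h3, h4, h5⟩ := h
  refine ⟨by simpa using h1, leftOK_map_fy h2, rightOK_map_fy h3, saw_map_fy h4, ?_⟩
  intro u v huv hu hv hh
  have h6 : p = u.map fy ++ v.map fy := by
    rw [← List.map_append, ← huv, map_fy_fy]
  exact h5 _ _ h6 (by simpa using hu) (by simpa using hv)
    ⟨leftOK_map_fy hh.1, rightOK_map_fy hh.2⟩

/-- the piece belonging to a signed label -/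
def pc {k : ℕ} (f : Fin k → List St) (x : Fin k × Bool) : List St :=
  if x.2 then f x.1 else (f x.1).map fy

theorem ofFn_act {k : ℕ} (f : Fin k → List St) (g : SPerm k) :
    List.ofFn (act g f) = (plist g).map (pc f) := by
  unfold plist
  rw [List.map_ofFn]
  rfl

theorem X_pc {k : ℕ} (f : Fin k → List St) (x : Fin k × Bool) : X (pc f x) = X (f x.1) := by
  unfold pc
  split_ifs
  · rfl
  · exact X_map_fy _

theorem Y_pc {k : ℕ} (f : Fin k → List St) (x : Fin k × Bool) :
    Y (pc f x) = if x.2 then Y (f x.1) else - Y (f x.1) := by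
  unfold pc
  split_ifs
  · rfl
  · exact Y_map_fy _

theorem length_pc {k : ℕ} (f : Fin k → List St) (x : Fin k × Bool) :
    (pc f x).length = (f x.1).length := by
  unfold pc
  split_ifs
  · rfl
  · simp

theorem X_flatten (P : List (List St)) : X P.flatten = (P.map X).sum := by
  induction P with
  | nil => rfl
  | cons p P ih => simp [X_append, ih]

theorem Y_flatten (P : List (List St)) : Y P.flatten = (P.map Y).sum := by
  induction P with
  | nil => rfl
  | cons p P ih => simp [Y_append, ih]

theorem X_flatten_pc {k : ℕ} (f : Fin k → List St) (hf : ∀ i, 0 ≤ X (f i))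
    (q : List (Fin k × Bool)) :
    X (q.map (pc f)).flatten = Wd (fun i => (X (f i)).toNat) q := by
  rw [X_flatten, List.map_map]
  unfold Wd
  congr 1
  apply List.map_congr_left
  intro x _
  simp only [Function.comp]
  rw [X_pc, Int.toNat_of_nonneg (hf _)]

theorem Y_flatten_pc {k : ℕ} (f : Fin k → List St) (q : List (Fin k × Bool)) :
    Y (q.map (pc f)).flatten = Ht (fun i => Y (f i)) q := by
  rw [Y_flatten, List.map_map]
  unfold Ht
  congr 1
  apply List.map_congr_left
  intro x _
  simp only [Function.comp]
  rw [Y_pc]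

theorem dec_act (r k : ℕ) (α β : List St) (f : Fin k → List St) (g : SPerm k)
    (h : Dec r α (List.ofFn f) β) :
    Dec r α (List.ofFn (act g f)) β ∧
      (List.ofFn (act g f)).flatten.length = (List.ofFn f).flatten.length ∧
      X (List.ofFn (act g f)).flatten = X (List.ofFn f).flatten := by
  have hX : X (List.ofFn (act g f)).flatten = X (List.ofFn f).flatten := by
    rw [X_flatten, X_flatten, List.map_ofFn, List.map_ofFn, List.sum_ofFn, List.sum_ofFn]
    have h1 : ∀ i, (X ∘ act g f) i = (X ∘ f) (g.1 i) := by
      intro i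
      exact X_pc f (g.1 i, g.2 i)
    rw [Finset.sum_congr rfl (fun i _ => h1 i)]
    exact Equiv.sum_comp g.1 (X ∘ f)
  have hL : (List.ofFn (act g f)).flatten.length = (List.ofFn f).flatten.length := by
    rw [List.length_flatten, List.length_flatten, List.map_ofFn, List.map_ofFn, List.sum_ofFn,
      List.sum_ofFn]
    have h1 : ∀ i, (List.length ∘ act g f) i = (List.length ∘ f) (g.1 i) := by
      intro i
      exact length_pc f (g.1 i, g.2 i)
    rw [Finset.sum_congr rfl (fun i _ => h1 i)]
    exact Equiv.sum_comp g.1 (List.length ∘ f)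
  refine ⟨?_, hL, hX⟩
  obtain ⟨h1, h2, h3, h4, h5, h6, h7, h8, h9⟩ := h
  unfold Dec
  rw [hX]
  refine ⟨h1, h2, h3, h4, ?_, h6, h7, h8, h9⟩
  intro p hp
  rw [List.mem_ofFn] at hp
  obtain ⟨i, rfl⟩ := hp
  have h10 : Piece (f (g.1 i)) := h5 _ (by rw [List.mem_ofFn]; exact ⟨_, rfl⟩)
  unfold act
  split_ifs
  · exact h10
  · exact piece_map_fy h10

/-! ### boundaries -/

theorem leftOK_nil : LeftOK [] := by
  intro u v huv
  have h : v = [] := by
    have := congrArg List.length huv
    simp at this
    exact List.eq_nil_of_length_eq_zero (by omega)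
  rw [h]; exact le_of_eq X_nil.symm

theorem rightOK_nil : RightOK [] := by
  intro u v huv hu
  exfalso
  apply hu
  have := congrArg List.length huv
  simp at this
  exact List.eq_nil_of_length_eq_zero (by omega)

theorem leftOK_append {u v : List St} (hu : LeftOK u) (hv : LeftOK v) : LeftOK (u ++ v) := by
  intro x y hxy
  rcases List.append_eq_append_iff.mp hxy with ⟨w, h1, h2⟩ | ⟨w, h1, h2⟩
  · exact hv _ _ h2
  · rw [h2, X_append]
    have h3 := hu _ _ h1
    have h4 := hv [] v (by simp)
    omega

theorem rightOK_append {u v : List St} (hu : RightOK u) (hv : RightOK v) :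
    RightOK (u ++ v) := by
  intro x y hxy hx
  rcases List.append_eq_append_iff.mp hxy with ⟨w, h1, h2⟩ | ⟨w, h1, h2⟩
  · rw [h1, X_append]
    have h3 : 0 ≤ X u := by
      by_cases hn : u = []
      · rw [hn]; exact le_of_eq X_nil.symm
      · exact (hu u [] (by simp) hn).le
    have h4 : 0 ≤ X w := by
      by_cases hn : w = []
      · rw [hn]; exact le_of_eq X_nil.symm
      · exact (hv _ _ h2 hn).le
    by_cases hn : u = []
    · have hw : w ≠ [] := by
        intro hw
        apply hx
        rw [h1, hn, hw]; rfl
      have := hv _ _ h2 hw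
      omega
    · have := hu u [] (by simp) hn
      omega
  · exact hu _ _ h1 hx

theorem leftOK_flatten (P : List (List St)) (h : ∀ p ∈ P, LeftOK p) : LeftOK P.flatten := by
  induction P with
  | nil => exact leftOK_nil
  | cons p P ih =>
    rw [List.flatten_cons]
    exact leftOK_append (h p (by simp)) (ih (fun q hq => h q (by simp [hq])))

theorem rightOK_flatten (P : List (List St)) (h : ∀ p ∈ P, RightOK p) : RightOK P.flatten := by
  induction P with
  | nil => exact rightOK_nil
  | cons p P ih =>
    rw [List.flatten_cons]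
    exact rightOK_append (h p (by simp)) (ih (fun q hq => h q (by simp [hq])))

/-- a suffix of a `LeftOK` list is `LeftOK` -/
theorem leftOK_suffix {u v : List St} (h : LeftOK (u ++ v)) : LeftOK v := by
  intro x y hxy
  exact h (u ++ x) y (by rw [hxy]; simp)

/-- a prefix of a `RightOK` list is `RightOK` -/
theorem rightOK_prefix {u v : List St} (h : RightOK (u ++ v)) : RightOK u := by
  intro x y hxy hx
  exact h x (y ++ v) (by rw [hxy]; simp) hx

/-- a cut of `P.flatten` is a boundary or is inside a piece -/
theorem boundary (P : List (List St)) : ∀ x y : List St, P.flatten = x ++ y →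
    (∃ j, j ≤ P.length ∧ x = (P.take j).flatten ∧ y = (P.drop j).flatten) ∨
    (∃ p ∈ P, ∃ u v x' y' : List St, p = u ++ v ∧ u ≠ [] ∧ v ≠ [] ∧ x = x' ++ u ∧
      y = v ++ y') := by
  induction P with
  | nil =>
    intro x y h
    left
    have h1 := congrArg List.length h
    simp at h1
    refine ⟨0, by simp, ?_, ?_⟩
    · simp; exact List.eq_nil_of_length_eq_zero (by omega)
    · simp; exact List.eq_nil_of_length_eq_zero (by omega)
  | cons p P ih =>
    intro x y h
    rw [List.flatten_cons] at h
    rcases List.append_eq_append_iff.mp h with ⟨w, h1, h2⟩ | ⟨w, h1, h2⟩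
    · rcases ih w y h2 with ⟨j, hj, h3, h4⟩ | ⟨q, hq, u, v, x', y', h3, h4, h5, h6, h7⟩
      · left
        refine ⟨j + 1, by simpa using hj, ?_, ?_⟩
        · rw [h1, List.take_succ_cons, List.flatten_cons, h3]
        · rw [List.drop_succ_cons, h4]
      · right
        refine ⟨q, by simp [hq], u, v, p ++ x', y', h3, h4, h5, ?_, h7⟩
        rw [h1, h6]; simp
    · by_cases hx : x = []
      · left
        refine ⟨0, by simp, by simp [hx], ?_⟩
        rw [hx] at h1
        rw [List.drop_zero, List.flatten_cons, h2, h1]; simp
      · by_cases hw : w = []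
        · left
          refine ⟨1, by simp, ?_, ?_⟩
          · rw [hw] at h1
            simp [h1]
          · rw [h2, hw]; simp
        · right
          exact ⟨p, by simp, x, w, [], P.flatten, h1, hx, hw, by simp, h2⟩

/-- every cut in the window is a boundary between two pieces -/
theorem cut_boundary (r : ℕ) (α β : List St) (P : List (List St)) (h : Dec r α P β) (t : ℕ)
    (ht : t ≤ (α ++ P.flatten ++ β).length) (hc : Cut (α ++ P.flatten ++ β) t)
    (hw : |2 * X ((α ++ P.flatten ++ β).take t) - X (α ++ P.flatten ++ β)| ≤ r) :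
    ∃ j, j ≤ P.length ∧ t = α.length + (P.take j).flatten.length ∧
      (α ++ P.flatten ++ β).take t = α ++ (P.take j).flatten ∧
      (α ++ P.flatten ++ β).drop t = (P.drop j).flatten ++ β := by
  obtain ⟨h1, h2, h3, h4, h5, h6, h7, h8, h9⟩ := h
  obtain ⟨hc1, hc2⟩ := hc
  have htd := List.take_append_drop t (α ++ P.flatten ++ β)
  have hlen : ((α ++ P.flatten ++ β).take t).length = t := by
    rw [List.length_take]; omega
  have hXl : X (α ++ P.flatten ++ β) = X α + X P.flatten + X β := by
    rw [X_append, X_append]
  rw [hXl] at hw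
  generalize hx : (α ++ P.flatten ++ β).take t = x at *
  generalize hy : (α ++ P.flatten ++ β).drop t = y at *
  have h10 : x ++ y = α ++ (P.flatten ++ β) := by rw [htd]; simp
  rcases List.append_eq_append_iff.mp h10 with ⟨w, e1, e2⟩ | ⟨w, e1, e2⟩
  · -- `α = x ++ w`, `y = w ++ (P.flatten ++ β)`
    by_cases hw0 : w = []
    · refine ⟨0, by simp, ?_, ?_, ?_⟩
      · rw [hw0] at e1
        simp at e1
        simp [e1, hlen]
      · rw [hw0] at e1
        simp at e1
        simp [e1]
      · rw [hw0] at e2
        simpa using e2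
    · exfalso
      rw [e2] at hc2
      exact h8 x w e1 hw0 hc1 (rightOK_prefix hc2) hw
  · -- `x = α ++ w`, `P.flatten ++ β = w ++ y`
    rcases List.append_eq_append_iff.mp e2 with ⟨z, e3, e4⟩ | ⟨z, e3, e4⟩
    · -- `w = P.flatten ++ z`, `β = z ++ y`
      by_cases hz : z = []
      · refine ⟨P.length, le_rfl, ?_, ?_, ?_⟩
        · rw [← hlen, e1, e3, hz]; simp
        · rw [e1, e3, hz]; simp
        · rw [hz] at e4
          simp [e4]
      · exfalso
        rw [e1, e3] at hc1
        have hzL : LeftOK z := by
          have : α ++ (P.flatten ++ z) = (α ++ P.flatten) ++ z := by simp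
          rw [this] at hc1
          exact leftOK_suffix hc1
        refine h9 z y e4 hz hzL hc2 ?_
        have : X x = X α + X P.flatten + X z := by
          rw [e1, e3, X_append, X_append]; ring
        rw [this] at hw
        exact hw
    · -- `P.flatten = w ++ z`, `y = z ++ β`
      rcases boundary P w z e3 with ⟨j, hj, e5, e6⟩ | ⟨p, hp, u, v, x', y', e5, hu, hv, e7, e8⟩
      · refine ⟨j, hj, ?_, ?_, ?_⟩
        · rw [← hlen, e1, e5]; simp
        · rw [e1, e5]
        · rw [e4, e6]
      · exfalso
        refine (h5 p hp).2.2.2.2 u v e5 hu hv ⟨?_, ?_⟩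
        · rw [e1, e7, ← List.append_assoc] at hc1
          exact leftOK_suffix hc1
        · rw [e4, e8, List.append_assoc] at hc2
          exact rightOK_prefix hc2

theorem flatten_ne_nil {P : List (List St)} (hP : P ≠ []) (h : ∀ p ∈ P, p ≠ []) :
    P.flatten ≠ [] := by
  cases P with
  | nil => exact absurd rfl hP
  | cons p P =>
    rw [List.flatten_cons]
    intro h1
    exact h p (by simp) (List.append_eq_nil_iff.mp h1).1

/-- `dec_nFold` from the statement of planarity. -/
theorem dec_nFold_of_planar
    (planar : ∀ A B : List St, Saw (A ++ B.map fx) →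
      ∃ e : ℤ, (e = 1 ∨ e = -1) ∧ ∀ A1 a b B1 : List St, A = A1 ++ a → B = b ++ B1 → a ≠ [] →
        b ≠ [] → LeftOK A1 → RightOK a → LeftOK b → RightOK B1 → X a = X b → 0 < e * (Y a + Y b))
    (r k : ℕ) (α β : List St) (f : Fin k → List St) (g : SPerm k)
    (h : Dec r α (List.ofFn f) β) :
    nFold r (α ++ (List.ofFn (act g f)).flatten ++ β)
      ≤ nCen (fun i => (X (f i)).toNat) (fun i => Y (f i)) g := by
  classical
  have hD := (dec_act r k α β f g h).1
  have hpf : ∀ i, 0 ≤ X (f i) := by
    intro i
    have h1 : Piece (f i) := h.2.2.2.2.1 _ (by rw [List.mem_ofFn]; exact ⟨_, rfl⟩)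
    exact h1.2.1 [] (f i) (by simp)
  rw [ofFn_act] at hD ⊢
  set P : List (List St) := (plist g).map (pc f) with hPdef
  have hPlen : P.length = k := by
    rw [hPdef, List.length_map]; simp [plist]
  have hpl : (plist g).length = k := by simp [plist]
  have hPp : ∀ p ∈ P, Piece p := hD.2.2.2.2.1
  unfold nFold nCen
  -- the fold times are among the images of the valid centres
  have key : ((Finset.range ((α ++ P.flatten ++ β).length + 1)).filter
      (fun t => Cut (α ++ P.flatten ++ β) t ∧ Saw (Pool.Agent.Helper54.SAW.fold (α ++ P.flatten ++ β) t) ∧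
        |2 * X ((α ++ P.flatten ++ β).take t) - X (α ++ P.flatten ++ β)| ≤ r)) ⊆
      ((Finset.range (k + 1)).filter
        (fun j => Val2 (fun i => (X (f i)).toNat) (fun i => Y (f i)) (plist g) j 1 ∨
          Val2 (fun i => (X (f i)).toNat) (fun i => Y (f i)) (plist g) j (-1))).image
        (fun j => α.length + (P.take j).flatten.length) := by
    intro t ht
    rw [Finset.mem_filter, Finset.mem_range] at ht
    obtain ⟨ht1, hcut, hsaw, hwin⟩ := ht
    obtain ⟨j, hj, htj, htake, hdrop⟩ := cut_boundary r α β P hD t (by omega) hcut hwin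
    rw [Finset.mem_image]
    refine ⟨j, ?_, htj.symm⟩
    rw [Finset.mem_filter, Finset.mem_range]
    refine ⟨by omega, ?_⟩
    unfold Pool.Agent.Helper54.SAW.fold at hsaw
    rw [htake, hdrop] at hsaw
    obtain ⟨e, he, hpl'⟩ := planar _ _ hsaw
    have hval : Val2 (fun i => (X (f i)).toNat) (fun i => Y (f i)) (plist g) j e := by
      intro a b ha1 haj hb1 hjb hWd
      rw [hpl] at hjb
      -- the pieces on both sides
      have hA : α ++ (P.take j).flatten =
          (α ++ ((P.take j).take (j - a)).flatten) ++ ((P.take j).drop (j - a)).flatten := by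
        rw [List.append_assoc, ← List.flatten_append, List.take_append_drop]
      have hB : (P.drop j).flatten ++ β =
          ((P.drop j).take b).flatten ++ (((P.drop j).drop b).flatten ++ β) := by
        rw [← List.append_assoc, ← List.flatten_append, List.take_append_drop]
      have hm1 : (P.take j).drop (j - a) = (((plist g).take j).drop (j - a)).map (pc f) := by
        rw [hPdef, List.map_drop, List.map_take]
      have hm2 : (P.drop j).take b = (((plist g).drop j).take b).map (pc f) := by
        rw [hPdef, List.map_take, List.map_drop]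
      have hXa : X ((P.take j).drop (j - a)).flatten = X ((P.drop j).take b).flatten := by
        rw [hm1, hm2, X_flatten_pc f hpf, X_flatten_pc f hpf]
        exact hWd
      have hsub1 : ∀ p ∈ (P.take j).drop (j - a), Piece p := fun p hp =>
        hPp p (List.mem_of_mem_take (List.mem_of_mem_drop hp))
      have hsub2 : ∀ p ∈ (P.drop j).take b, Piece p := fun p hp =>
        hPp p (List.mem_of_mem_drop (List.mem_of_mem_take hp))
      have hsub3 : ∀ p ∈ (P.take j).take (j - a), Piece p := fun p hp =>
        hPp p (List.mem_of_mem_take (List.mem_of_mem_take hp))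
      have hsub4 : ∀ p ∈ (P.drop j).drop b, Piece p := fun p hp =>
        hPp p (List.mem_of_mem_drop (List.mem_of_mem_drop hp))
      have hne1 : (P.take j).drop (j - a) ≠ [] := by
        intro h0
        have h1 := congrArg List.length h0
        rw [List.length_drop, List.length_take, List.length_nil, hPlen] at h1
        omega
      have hne2 : (P.drop j).take b ≠ [] := by
        intro h0
        have h1 := congrArg List.length h0
        rw [List.length_take, List.length_drop, List.length_nil, hPlen] at h1
        omega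
      have hfin := hpl' _ _ _ _ hA hB
        (flatten_ne_nil hne1 (fun p hp => (hsub1 p hp).1))
        (flatten_ne_nil hne2 (fun p hp => (hsub2 p hp).1))
        (leftOK_append hD.1 (leftOK_flatten _ (fun p hp => (hsub3 p hp).2.1)))
        (rightOK_flatten _ (fun p hp => (hsub1 p hp).2.2.1))
        (leftOK_flatten _ (fun p hp => (hsub2 p hp).2.1))
        (rightOK_append (rightOK_flatten _ (fun p hp => (hsub4 p hp).2.2.1)) hD.2.2.1)
        hXa
      rw [hm1, hm2, Y_flatten_pc, Y_flatten_pc] at hfin
      exact hfin
    rcases he with rfl | rfl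
    · exact Or.inl hval
    · exact Or.inr hval
  exact (Finset.card_le_card key).trans Finset.card_image_le

theorem dec_nFold (r k : ℕ) (α β : List St) (f : Fin k → List St) (g : SPerm k)
    (h : Dec r α (List.ofFn f) β) :
    nFold r (α ++ (List.ofFn (act g f)).flatten ++ β)
      ≤ nCen (fun i => (X (f i)).toNat) (fun i => Y (f i)) g :=
  dec_nFold_of_planar Pool.Agent.Helper44.SAW.planar r k α β f g h

end Pool.Agent.Helper3.SAW
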